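import Pool.Agent.Helper41.LF.GoalsA

/-!
# ONF: the full rank case
-/

set_option autoImplicit false

namespace Pool.Agent.Helper41.LF

open MeasureTheory Finset

/-- the upper triangular matrix of the map `h_x` -/
noncomputable def onfM (d : ℕ) (a K x : ℝ) : Matrix (Fin (d + 1)) (Fin (d + 1)) ℝ :=
  fun i l => if l = 0 then (if i = 0 then a else 0) else if i = 0 then K * x ^ (l : ℕ) else if i = l then -K else 0

theorem onf_hx (d : ℕ) (a K x : ℝ) (v : Fin (d + 1) → ℤ) (l : Fin (d + 1)) :
    hx d a K x v l = ∑ i, (v i : ℝ) * onfM d a K x i l := by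
  unfold hx onfM
  rw [Fin.sum_univ_succ]
  by_cases hl : l = 0
  · subst hl
    have h1 : ∀ i : Fin d, (v i.succ : ℝ) * (if (0 : Fin (d + 1)) = 0 then (if i.succ = 0 then a else 0)
        else if i.succ = 0 then K * x ^ ((0 : Fin (d + 1)) : ℕ) else if i.succ = 0 then -K else 0) = 0 := by
      intro i
      simp [Fin.succ_ne_zero]
    rw [Finset.sum_congr rfl fun i _ => h1 i]
    simp [mul_comm]
  · obtain ⟨m, rfl⟩ := Fin.exists_succ_eq.mpr hl
    have h1 : ∀ i : Fin d, (v i.succ : ℝ) * (if m.succ = 0 then (if i.succ = 0 then a else 0)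
        else if i.succ = 0 then K * x ^ ((m.succ : Fin (d + 1)) : ℕ) else if i.succ = m.succ then -K else 0) =
        if i = m then (v i.succ : ℝ) * (-K) else 0 := by
      intro i
      rw [if_neg hl, if_neg (Fin.succ_ne_zero i)]
      by_cases him : i = m
      · subst him
        simp
      · rw [if_neg (fun e => him (Fin.succ_injective _ e)), if_neg him, mul_zero]
    rw [Finset.sum_congr rfl fun i _ => h1 i, Finset.sum_ite_eq' Finset.univ m, if_pos (Finset.mem_univ m),
      if_neg hl, if_neg hl, if_pos rfl]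
    ring

theorem onf_det (d : ℕ) (a K x : ℝ) : (onfM d a K x).det = a * (-K) ^ d := by
  have h1 : (onfM d a K x).BlockTriangular id := by
    intro i j hij
    have hij' : j < i := hij
    unfold onfM
    have hi0 : i ≠ 0 := fun e => by
      subst e
      exact absurd hij' (Fin.not_lt_zero j)
    by_cases hj : j = 0
    · rw [if_pos hj, if_neg hi0]
    · rw [if_neg hj, if_neg hi0, if_neg (ne_of_gt hij')]
  rw [Matrix.det_of_upperTriangular h1, Fin.prod_univ_succ]
  have h2 : onfM d a K x 0 0 = a := by simp [onfM]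
  have h3 : ∀ i : Fin d, onfM d a K x i.succ i.succ = -K := by
    intro i
    unfold onfM
    rw [if_neg (Fin.succ_ne_zero i), if_neg (Fin.succ_ne_zero i), if_pos rfl]
  rw [h2, Finset.prod_congr rfl fun i _ => h3 i, Finset.prod_const, Finset.card_univ, Fintype.card_fin]

theorem thm_ONF : S_ONF := by
  intro d a K β ha hK haK hli x
  have h0 : |mnr a K x β id| ≤ psi a K β x := by
    unfold psi
    exact Finset.single_le_sum (f := fun r => |mnr a K x β r|) (fun r _ => abs_nonneg _) (Finset.mem_univ id)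
  refine le_trans ?_ h0
  set Z : Matrix (Fin (d + 1)) (Fin (d + 1)) ℤ := Matrix.of β with hZ
  have h1 : (Matrix.of fun (k l : Fin (d + 1)) => hx d a K x (β k) (id l)) =
      (Z.map (Int.castRingHom ℝ)) * onfM d a K x := by
    ext k l
    rw [Matrix.mul_apply, Matrix.of_apply, id, onf_hx]
    rfl
  have h2 : mnr a K x β id = (Z.det : ℝ) * (a * (-K) ^ d) := by
    unfold mnr
    rw [h1, Matrix.det_mul, onf_det]
    congr 1
    have := RingHom.map_det (Int.castRingHom ℝ) Z
    simpa using this.symm
  have h3 : Z.det ≠ 0 := by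
    intro h
    have h4 : IsUnit (Z.map (Int.castRingHom ℚ)) := by
      rw [← Matrix.linearIndependent_rows_iff_isUnit]
      exact hli
    rw [Matrix.isUnit_iff_isUnit_det] at h4
    have h5 : (Z.map (Int.castRingHom ℚ)).det = ((Z.det : ℤ) : ℚ) := by
      have := RingHom.map_det (Int.castRingHom ℚ) Z
      simpa using this.symm
    rw [h5, h] at h4
    simp at h4
  have h4 : (1 : ℝ) ≤ |(Z.det : ℝ)| := by
    rw [← Int.cast_abs]
    exact_mod_cast Int.one_le_abs h3
  rw [h2, abs_mul, abs_mul, abs_pow, abs_neg, abs_of_pos ha, abs_of_pos hK]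
  have h5 : 1 * 1 ≤ |(Z.det : ℝ)| * (a * K ^ d) := mul_le_mul h4 haK zero_le_one (abs_nonneg _)
  simpa using h5

end Pool.Agent.Helper41.LF
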