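import Pool.Agent.Helper61.LF.GoalsN

/-!
# Packet LF-CH0 (MP_c65973_gt): a finitely generated ring of characteristic zero maps to algebraic numbers
-/

set_option autoImplicit false

open TensorProduct

namespace Pool.Agent.Helper69.LF.CH0

open Pool.Agent.Helper61.LF

universe u

theorem lift_field (K : Type u) [Field K] [Algebra ℚ K] [Algebra.FiniteType ℚ K] :
    Nonempty (K →ₐ[ℚ] AlgebraicClosure ℚ) := by
  have hfin : Module.Finite ℚ K := finite_of_finite_type_of_isJacobsonRing ℚ K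
  exact ⟨IsAlgClosed.lift⟩

theorem t : S_CH0.{u} := by
  intro A _ hA hn hno
  -- the integers inject
  have hinj : Function.Injective (Algebra.linearMap ℤ A) := by
    rw [← LinearMap.ker_eq_bot, LinearMap.ker_eq_bot']
    intro m hm
    have hm' : (m : A) = 0 := by simpa using hm
    by_contra hne
    have h1 : (0 : ℕ) < m.natAbs := Int.natAbs_pos.2 hne
    apply hn m.natAbs h1
    rcases Int.natAbs_eq m with h | h
    · rw [h] at hm'
      simpa using hm'
    · rw [h] at hm'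
      simpa using hm'
  have hinj2 : Function.Injective (LinearMap.lTensor ℚ (Algebra.linearMap ℤ A)) :=
    Module.Flat.lTensor_preserves_injective_linearMap _ hinj
  have hnt0 : Nontrivial (ℚ ⊗[ℤ] ℤ) := (TensorProduct.rid ℤ ℚ).symm.injective.nontrivial
  have hnt : Nontrivial (ℚ ⊗[ℤ] A) := hinj2.nontrivial
  obtain ⟨m, hm⟩ := Ideal.exists_maximal (ℚ ⊗[ℤ] A)
  let _ : Field ((ℚ ⊗[ℤ] A) ⧸ m) := Ideal.Quotient.field m
  have hft : Algebra.FiniteType ℚ (ℚ ⊗[ℤ] A) := Algebra.FiniteType.baseChange ℚ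
  have hft2 : Algebra.FiniteType ℚ ((ℚ ⊗[ℤ] A) ⧸ m) :=
    Algebra.FiniteType.of_surjective (Ideal.Quotient.mkₐ ℚ m)
      (Ideal.Quotient.mkₐ_surjective ℚ m)
  obtain ⟨ψ⟩ := lift_field ((ℚ ⊗[ℤ] A) ⧸ m)
  let φ : A →+* AlgebraicClosure ℚ := (ψ : ((ℚ ⊗[ℤ] A) ⧸ m) →+* AlgebraicClosure ℚ).comp
    ((Ideal.Quotient.mk m).comp
      ((Algebra.TensorProduct.includeRight : A →ₐ[ℤ] ℚ ⊗[ℤ] A) : A →+* ℚ ⊗[ℤ] A))
  obtain ⟨S, hS⟩ := hA.out
  apply hno φ (φ '' (S : Set A)) (S.finite_toSet.image φ)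
  intro a
  rw [← RingHom.map_closure]
  refine Subring.mem_map.2 ⟨a, ?_, rfl⟩
  have ha : a ∈ Algebra.adjoin ℤ (S : Set A) := by rw [hS]; exact Algebra.mem_top
  rw [Algebra.adjoin_int] at ha
  exact ha

end Pool.Agent.Helper69.LF.CH0
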